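import Pool.Agent.H593Z.FinMealy

/-!
The finiteness problem for groups generated by invertible reset Mealy automata is undecidable.
-/

set_option autoImplicit false

namespace Pool.Agent.Results.MP_322aed_lc.ResetUndecidable

open H593Z.FinAut

/-- No algorithm, even one that need not halt on tables that do not describe an automaton, answers
correctly for every invertible reset automaton whether the group it generates is finite. -/
theorem result :
    ¬ ∃ alg : ℕ × ℕ × List ℕ × List (List ℕ) →. Bool, Partrec alg ∧
      ∀ (n m : ℕ) (f : Fin m → Fin n) (rho : Fin n → Equiv.Perm (Fin m)),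
        ∃ b ∈ alg (resetCode f rho), (b = true ↔ Finite (resetGroup f rho)) := by
  rintro ⟨alg, halg, h⟩
  obtain ⟨m, rho, hm, hR, -, hnc⟩ := exists_family
  apply hnc
  have h1 : Computable (fun n => resetCode id (rho n)) := by
    refine (hm.pair (hm.pair ((Primrec.list_range.to_comp.comp hm).pair hR))).of_eq fun n => ?_
    simp only [resetCode, Prod.mk.injEq, true_and, and_true]
    apply List.ext_getElem (by simp)
    intro i _ _
    simp
  choose b hb1 hb2 using fun n => h (m n) (m n) id (rho n)
  refine ComputablePred.computable_iff.2 ⟨b, Partrec.of_eq_tot (halg.comp h1) hb1, ?_⟩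
  funext n
  rw [eq_iff_iff, hb2, group_finite_iff]

end Pool.Agent.Results.MP_322aed_lc.ResetUndecidable
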